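import Pool.Agent.N234.CP.Final

set_option autoImplicit false

open scoped Manifold ContDiff Topology
open Set Filter

namespace Pool.Agent.Results.MP_610fe3_an.EntropyPinching

open Pool.Agent.H721R2 Pool.Agent.H789R2.AN Pool.Agent.TH289.K Pool.Agent.N234.CP

/-- **An entropy criterion for the transitivity of Anosov diffeomorphisms.**
Let `f` be a `C¹` Anosov diffeomorphism of a closed connected manifold `M`, `ds = dim Eˢ`,
`du = dim Eᵘ`.

(1) If `f` contracts `Eˢ` at the exponential rate `s` (`ContractsAt`: `‖Dfⁿ v‖ ≤ C e^(-s n) ‖v‖` on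
`Eˢ`), then `f` contracts the stable sets in the large at every rate `s' < s` (`CoarseContracts`:
the end points of a chain of `N` small stable steps are close after all iterations `≥ n`, if
`C N ≤ e^(s' n)`); the same for `f⁻¹` and `Eᵘ`.

(2) If `f` contracts the stable sets in the large at the rate `s`, and the topological entropy of
`f` is less than `S + (ds - 1) s`, then `f⁻¹` expands them in the large at the rate `S` at most
(`CoarseExpands`: the preimage under `fⁿ` of a small stable step is covered by `C e^(S n)` small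
stable steps); the same for `f⁻¹`.

(3) Let `s ≤ S` be such coarse rates of `f`, and `u ≤ U` such coarse rates of `f⁻¹` (the coarse
rates are invariant under topological conjugation).  If `s / S + u / U > 1` then `f` is
topologically transitive, its periodic points are dense and it has global product structure.

(4) Let `s` and `u` be rates of contraction of `f` on `Eˢ` and of `f⁻¹` on `Eᵘ`, infinitesimal or in
the large, and let `h` be at least the topological entropy of `f`.  If
`(h - s dim Eˢ) (h - u dim Eᵘ) < s u` then `f` is topologically transitive, its periodic points are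
dense and it has global product structure. -/
theorem result (E : Type*) [NormedAddCommGroup E] [NormedSpace ℝ E] [FiniteDimensional ℝ E]
    (M : Type*) [TopologicalSpace M] [T2Space M] [CompactSpace M] [ConnectedSpace M]
    [ChartedSpace E M] [IsManifold 𝓘(ℝ, E) ∞ M] (f : Diffeomorph 𝓘(ℝ, E) 𝓘(ℝ, E) M M 1)
    (Es Eu : ∀ x : M, Submodule ℝ (TangentSpace 𝓘(ℝ, E) x)) (hA : IsAnosov f Es Eu)
    (ds du : ℕ) (hds : ∀ x, Module.finrank ℝ (Es x) = ds)
    (hdu : ∀ x, Module.finrank ℝ (Eu x) = du) :
    (∀ s s' : ℝ, 0 < s' → s' < s → (ContractsAt f Es s → CoarseContracts f s') ∧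
      (ContractsAt f.symm Eu s → CoarseContracts f.symm s')) ∧
    (∀ s S : ℝ, 0 < s → 0 < S →
      (CoarseContracts f s → topEntropy f < ((S + (ds - 1) * s : ℝ) : EReal) →
        CoarseExpands f.toHomeomorph S) ∧
      (CoarseContracts f.symm s → topEntropy f < ((S + (du - 1) * s : ℝ) : EReal) →
        CoarseExpands f.toHomeomorph.symm S)) ∧
    (∀ s S u U : ℝ, 0 < s → s ≤ S → 0 < u → u ≤ U → CoarseContracts f s →
      CoarseExpands f.toHomeomorph S → CoarseContracts f.symm u →
      CoarseExpands f.toHomeomorph.symm U → 1 < s / S + u / U →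
      TopTransitive f ∧ Dense (Function.periodicPts f) ∧ GPS f.toHomeomorph) ∧
    ∀ s u h : ℝ, 0 < s → 0 < u → (ContractsAt f Es s ∨ CoarseContracts f s) →
      (ContractsAt f.symm Eu u ∨ CoarseContracts f.symm u) → topEntropy f ≤ (h : EReal) →
      (h - ds * s) * (h - du * u) < s * u →
      TopTransitive f ∧ Dense (Function.periodicPts f) ∧ GPS f.toHomeomorph := by
  have hA' := Pool.Agent.W740.TU.anosov_symm f Es Eu hA
  refine ⟨fun s s' h0 h1 => ⟨fun h => coarse_of_contractsAt f Es Eu hA s h s' h0 h1,
    fun h => coarse_of_contractsAt f.symm Eu Es hA' s h s' h0 h1⟩,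
    fun s S hs hS => ⟨fun h1 h2 => coarseExpands_of_entropy f Es Eu hA ds hds s S hs hS h1
      (Or.inl h2), fun h1 h2 => coarseExpands_of_entropy f.symm Eu Es hA' du hdu s S hs hS h1
      (Or.inr h2)⟩,
    fun s S u U hs hsS hu huU h1 h2 h3 h4 hlt => ?_, fun s u h hs hu h1 h2 hh hlt => ?_⟩
  · obtain ⟨a1, a2, a3, -⟩ := coarse_pinching f Es Eu hA s S u U hs hsS hu huU h1 h2 h3 h4 hlt
    exact ⟨a1, a2, a3⟩
  · obtain ⟨s', S', u', U', b1, b2, b3, b4, b5, b6, b7, b8, b9⟩ :=
      rates_of_entropy f Es Eu hA ds du hds hdu s u h hs hu h1 h2 hh hlt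
    obtain ⟨a1, a2, a3, -⟩ := coarse_pinching f Es Eu hA s' S' u' U' b1 b2 b3 b4 b5 b6 b7 b8 b9
    exact ⟨a1, a2, a3⟩

end Pool.Agent.Results.MP_610fe3_an.EntropyPinching
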