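import Pool.Agent.N234.NL.Main

set_option autoImplicit false

open scoped Manifold ContDiff Topology
open Set Filter

namespace Pool.Agent.Results.MP_610fe3_an.OneSidedNilpotentCover

open Pool.Agent.H721R2 Pool.Agent.H789R2.AN Pool.Agent.N234.NL
open Pool.Agent.TH289.K (GPS)

/-- **Anosov diffeomorphisms whose unstable leaves are at most polynomially distorted in a nilpotent
cover are transitive.**
Let `f` be a `C¹` Anosov diffeomorphism of a closed connected smooth manifold `M`.  Let
`0 = V 0 ⊆ V 1 ⊆ ⋯ ⊆ V d = W` be a flag of subspaces of a finite-dimensional complex vector space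
`W`, `U = Unip V` the nilpotent group of the unipotent operators of the flag
(`(u - 1) (V (j + 1)) ⊆ V j`), and `T` ANY invertible operator that preserves the flag.  Let `C` be a
cocycle near the diagonal of `M × M` with values in `U`, invariant under `f` up to the conjugation
with `T` and a twist (`LocalCocycle`): `δ x z = δ x y * δ y z` for nearby points, `δ → 1` at the
diagonal, and `b x * δ (f x) (f y) = T * δ x y * T⁻¹ * b y` for some function `b : M → U`.  For
instance, if `φ : M → Γ\N` is a continuous map to a nilmanifold, with `N ⊆ U` a simply connected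
nilpotent Lie group and `φ ∘ f` homotopic to `A ∘ φ`, where the automorphism `A` of `N` is the
conjugation with `T`, then `δ x y` is the difference of the values at `x` and `y` of a local lift of
`φ` to `N`.

Suppose that the unstable leaves are polynomially properly displaced by `C` (`PolyDisplaced C`): for
every neighbourhood `𝒰` of the diagonal there are constants `a`, `b` such that, if `γ` is a path in
an unstable leaf and `θ` is a lift of `γ` to `U` (`θ s = θ t * δ (γ t) (γ s)` for `s` near `t`), then
`f⁻ⁿ(γ 0)` and `f⁻ⁿ(γ 1)` are `𝒰`-close for all `n ≥ a log (1 + ‖(θ 0)⁻¹ θ 1‖) + b`.  (As `f⁻ⁿ`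
contracts the unstable leaves exponentially, this holds if the distance in the unstable leaf is
bounded by a power of `1 + ‖(θ 0)⁻¹ θ 1‖`, that is, if the lifts of the unstable leaves to the
nilpotent cover of `M` given by `C` have at most polynomial distortion.)

Nothing is assumed on the stable foliation, on the kernel of the cover, on the universal cover of
`M`, on the dimensions, or on the eigenvalues of `T` (they may be of modulus `1`).

Then `f` is topologically transitive, its periodic points are dense and `f` has global product
structure. -/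
theorem result (E : Type*) [NormedAddCommGroup E] [NormedSpace ℝ E] [FiniteDimensional ℝ E]
    (M : Type*) [TopologicalSpace M] [T2Space M] [CompactSpace M] [ConnectedSpace M]
    [ChartedSpace E M] [IsManifold 𝓘(ℝ, E) ∞ M] (f : Diffeomorph 𝓘(ℝ, E) 𝓘(ℝ, E) M M 1)
    (Es Eu : ∀ x : M, Submodule ℝ (TangentSpace 𝓘(ℝ, E) x)) (hf : IsAnosov f Es Eu)
    (W : Type*) [NormedAddCommGroup W] [NormedSpace ℂ W] [FiniteDimensional ℂ W]
    (V : ℕ → Submodule ℂ W) (d : ℕ) (h0 : V 0 = ⊥) (hd : V d = ⊤) (hV : Monotone V)
    (T : (W →L[ℂ] W)ˣ) (hT : ∀ j, ∀ w ∈ V j, (T : W →L[ℂ] W) w ∈ V j)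
    (C : LocalCocycle f.toHomeomorph (Unip V) T) (hC : PolyDisplaced C) :
    TopTransitive f ∧ Dense (Function.periodicPts f) ∧ GPS f.toHomeomorph := by
  obtain ⟨h1, h2, h3, -, -⟩ := nil_main (flagFA V d h0 hd hV T hT) f Es Eu hf (Unip V)
    (flagFA_U V d h0 hd hV T hT) C hC
  exact ⟨h1, h2, h3⟩

end Pool.Agent.Results.MP_610fe3_an.OneSidedNilpotentCover
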