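import Pool.Agent.N520.T.Final

/-!
# Transitivity of Anosov diffeomorphisms and transverse measures of full support
-/

set_option autoImplicit false

open scoped Manifold ContDiff Topology
open Set Filter MeasureTheory

namespace Pool.Agent.Results.MP_610fe3_an.TransverseMeasures

open Pool.Agent.H721R2 Pool.Agent.H789R2.AN

/-- The local unstable set of `x` of size `ε`: all `y` with `d(g⁻ᵏ x, g⁻ᵏ y) ≤ ε` for all
`k ≥ 0`. -/
def localUnstable {M : Type*} [MetricSpace M] (g : M ≃ₜ M) (ε : ℝ) (x : M) : Set M :=
  {y | ∀ k : ℕ, dist (g.symm^[k] x) (g.symm^[k] y) ≤ ε}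

/-- `θ` is a stable holonomy on `K`: it is continuous and injective on `K`, and `y` and `θ(y)` are
forward asymptotic, uniformly for `y ∈ K`. -/
structure IsStableHolonomy {M : Type*} [MetricSpace M] (g : M ≃ₜ M) (K : Set M) (θ : M → M) :
    Prop where
  continuousOn : ContinuousOn θ K
  injOn : InjOn θ K
  asymptotic : ∀ δ > 0, ∀ᶠ n in atTop, ∀ y ∈ K, dist (g^[n] y) (g^[n] (θ y)) ≤ δ

/-- Potentials: continuous functions with the Bowen property. With
`S_n φ (x) = φ (x) + φ (g x) + … + φ (gⁿ⁻¹ x)`, there are `e > 0` and `V` such that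
`|S_n φ (x) - S_n φ (y)| ≤ V` whenever `d(gᵏ x, gᵏ y) ≤ e` for all `k < n`.
(All Hölder functions have this property when `g` is Anosov.) -/
def IsPotential {M : Type*} [MetricSpace M] (g : M ≃ₜ M) (φ : M → ℝ) : Prop :=
  Continuous φ ∧ ∃ e > 0, ∃ V : ℝ, ∀ (n : ℕ) (x y : M), (∀ k < n, dist (g^[k] x) (g^[k] y) ≤ e) →
    |birkhoffSum g φ n x - birkhoffSum g φ n y| ≤ V

/-- `ν` is a `φ`-quasi-invariant transverse measure of full support of the stable foliation of `g`,
given as a family of measures `ν x` on the local unstable sets of size `ε`: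
* the local unstable set of `x` of size `ε` has finite measure for `ν x`;
* every local unstable set of `x` of size `ρ > 0` has positive measure for `ν x`;
* for every stable holonomy `θ` from a compact subset `K` of the local unstable set of `x` into that
  of `x'` one has `ν x (K) ≤ C eᵗ ν x' (θ K)`, whenever `S_n φ (y) - S_n φ (θ y) ≤ t` for all
  `y ∈ K` and all large `n`. -/
structure IsTransverse {M : Type*} [MetricSpace M] [MeasurableSpace M] (g : M ≃ₜ M) (φ : M → ℝ)
    (ε C : ℝ) (ν : M → Measure M) : Prop where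
  finite : ∀ x, ν x (localUnstable g ε x) ≠ ⊤
  pos : ∀ x, ∀ ρ > 0, ν x (localUnstable g ρ x) ≠ 0
  holonomy : ∀ (x x' : M) (K : Set M) (θ : M → M) (t : ℝ), IsCompact K →
    K ⊆ localUnstable g ε x → θ '' K ⊆ localUnstable g ε x' → IsStableHolonomy g K θ →
    (∀ᶠ n in atTop, ∀ y ∈ K, birkhoffSum g φ n y - birkhoffSum g φ n (θ y) ≤ t) →
    ν x K ≤ ENNReal.ofReal (C * Real.exp t) * ν x' (θ '' K)

/-- The stable foliation of `g` has a `φ`-quasi-invariant transverse measure of full support (at
some scale `ε > 0` and with some constant `C > 0`). For `g⁻¹` in place of `g` this is the statement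
for the unstable foliation of `g`. -/
def HasTransverseMeasure {M : Type*} [MetricSpace M] [MeasurableSpace M] (g : M ≃ₜ M)
    (φ : M → ℝ) : Prop :=
  ∃ (ε C : ℝ) (ν : M → Measure M), 0 < ε ∧ 0 < C ∧ IsTransverse g φ ε C ν

lemma potential_iff {M : Type*} [MetricSpace M] (g : M ≃ₜ M) (φ : M → ℝ) :
    IsPotential g φ ↔ Pool.Agent.N520.T.Pot g φ := Iff.rfl

lemma transverse_iff {M : Type*} [MetricSpace M] [MeasurableSpace M] (g : M ≃ₜ M) (φ : M → ℝ)
    (ε C : ℝ) (ν : M → Measure M) :
    IsTransverse g φ ε C ν ↔ Pool.Agent.N520.T.TM g φ ε C ν := by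
  constructor
  · rintro ⟨h1, h2, h3⟩
    exact ⟨h1, h2, fun x x' K θ t hK hKs hθs hc hi ha hs =>
      h3 x x' K θ t hK hKs hθs ⟨hc, hi, ha⟩ hs⟩
  · rintro ⟨h1, h2, h3⟩
    exact ⟨h1, h2, fun x x' K θ t hK hKs hθs hh hs =>
      h3 x x' K θ t hK hKs hθs hh.1 hh.2 hh.3 hs⟩

lemma has_iff {M : Type*} [MetricSpace M] [MeasurableSpace M] (g : M ≃ₜ M) (φ : M → ℝ) :
    HasTransverseMeasure g φ ↔ Pool.Agent.N520.T.Has g φ := by
  simp only [HasTransverseMeasure, Pool.Agent.N520.T.Has, transverse_iff]

/-- **Transitivity of Anosov diffeomorphisms and transverse measures of full support.**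
Let `f` be a `C¹` Anosov diffeomorphism of a closed connected manifold `M`, with any distance that
defines the topology. The following are equivalent:
1. `f` is topologically transitive;
2. for every potential `φ`, both the stable and the unstable foliation have a `φ`-quasi-invariant
   transverse measure of full support;
3. there are two potentials `φ`, `ψ` with the same sums over all periodic orbits (for instance
   `φ = ψ = 0`) such that the stable foliation has a `φ`-quasi-invariant transverse measure of full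
   support and the unstable foliation has a `ψ`-quasi-invariant one;
4. for every potential `φ` the stable foliation has a `φ`-quasi-invariant transverse measure of full
   support;
5. for every potential `φ` the unstable foliation has one. -/
theorem result (E : Type*) [NormedAddCommGroup E] [NormedSpace ℝ E] [FiniteDimensional ℝ E]
    (M : Type*) [MetricSpace M] [CompactSpace M] [ConnectedSpace M]
    [MeasurableSpace M] [BorelSpace M]
    [ChartedSpace E M] [IsManifold 𝓘(ℝ, E) ∞ M] (f : Diffeomorph 𝓘(ℝ, E) 𝓘(ℝ, E) M M 1)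
    (Es Eu : ∀ x : M, Submodule ℝ (TangentSpace 𝓘(ℝ, E) x)) (hf : IsAnosov f Es Eu) :
    List.TFAE [TopTransitive f,
      ∀ φ : M → ℝ, IsPotential f.toHomeomorph φ →
        HasTransverseMeasure f.toHomeomorph φ ∧ HasTransverseMeasure f.toHomeomorph.symm φ,
      ∃ φ ψ : M → ℝ, IsPotential f.toHomeomorph φ ∧ IsPotential f.toHomeomorph ψ ∧
        (∀ (x : M) (T : ℕ), 1 ≤ T → f^[T] x = x → birkhoffSum f φ T x = birkhoffSum f ψ T x) ∧
        HasTransverseMeasure f.toHomeomorph φ ∧ HasTransverseMeasure f.toHomeomorph.symm ψ,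
      ∀ φ : M → ℝ, IsPotential f.toHomeomorph φ → HasTransverseMeasure f.toHomeomorph φ,
      ∀ φ : M → ℝ, IsPotential f.toHomeomorph φ → HasTransverseMeasure f.toHomeomorph.symm φ] := by
  simp only [has_iff, potential_iff]
  exact Pool.Agent.N520.T.man_tfae f Es Eu hf

end Pool.Agent.Results.MP_610fe3_an.TransverseMeasures
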